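import Pool.Agent.Y795.PiH.Stm

/-!
# Hankel determinants of linear forms in `1` and `π`: the determinant at an odd prime (PH2)
-/

set_option autoImplicit false

open Polynomial Filter

namespace Pool.Agent.Y871.PiH

open Pool.Agent.H326R2.Pi Pool.Agent.Y795.PiH

lemma norm_prod (q : ℕ) [Fact q.Prime] {ι : Type*} (s : Finset ι) (f : ι → ℚ) :
    padicNorm q (∏ i ∈ s, f i) = ∏ i ∈ s, padicNorm q (f i) := by
  classical
  induction s using Finset.induction_on with
  | empty => simp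
  | insert a s ha ih => rw [Finset.prod_insert ha, Finset.prod_insert ha, padicNorm.mul, ih]

/-- the determinant of a matrix with rows of bounded norm -/
lemma det_norm_le (q : ℕ) [Fact q.Prime] {n : ℕ} (M : Matrix (Fin n) (Fin n) ℚ) (r : Fin n → ℚ)
    (hr0 : ∀ i, 0 ≤ r i) (h : ∀ i j, padicNorm q (M i j) ≤ r i) :
    padicNorm q M.det ≤ ∏ i, r i := by
  classical
  rw [Matrix.det_apply]
  refine padicNorm.sum_le' (fun σ _ => ?_) (Finset.prod_nonneg fun i _ => hr0 i)
  have h1 : padicNorm q (Equiv.Perm.sign σ • ∏ i, M (σ i) i) = padicNorm q (∏ i, M (σ i) i) := by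
    rcases Int.units_eq_one_or (Equiv.Perm.sign σ) with hs | hs
    · rw [hs, one_smul]
    · rw [hs, Units.neg_smul, one_smul, padicNorm.neg]
  rw [h1, norm_prod]
  calc ∏ i, padicNorm q (M (σ i) i) ≤ ∏ i, r (σ i) :=
        Finset.prod_le_prod (fun i _ => padicNorm.nonneg _) (fun i _ => h (σ i) i)
    _ = ∏ i, r i := Equiv.prod_comp σ r

/-- the scaled determinant in an integral basis -/
lemma scaled (p : ℕ) (hp : 1 ≤ p) (a : ℤ) (b : ℕ) (hb : 1 ≤ b) (Q : ℕ → ℤ[X])
    (hQ : ∀ i ≤ p, (Q i).Monic ∧ (Q i).natDegree = i) :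
    (b : ℚ) ^ (p + 1) * DET p (a / b) = (Matrix.of fun i j : Fin (p + 1) =>
      (a : ℚ) * kf p (iq (Q i * Q j)) + b * bf p (iq (Q i * Q j))).det := by
  have h1 := DET_basis p hp (a / b) (fun i => iq (Q i)) (fun i hi => by
    obtain ⟨h2, h3⟩ := hQ i hi
    refine ⟨h2.map _, ?_⟩
    unfold iq
    rw [h2.natDegree_map, h3])
  rw [h1]
  have h2 := Matrix.det_smul (Matrix.of fun i j : Fin (p + 1) =>
    Nz p ((a : ℚ) / b) (iq (Q i) * iq (Q j))) (b : ℚ)
  rw [Fintype.card_fin] at h2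
  rw [← h2]
  congr 1
  ext i j
  rw [Matrix.smul_apply, Matrix.of_apply, Matrix.of_apply]
  have h3 : iq (Q i) * iq (Q j) = iq (Q i * Q j) := by
    unfold iq; rw [Polynomial.map_mul]
  have hb' : (b : ℚ) ≠ 0 := by
    have : b ≠ 0 := by omega
    exact_mod_cast this
  rw [h3, smul_eq_mul]
  unfold Nz
  field_simp

lemma entry (q : ℕ) [Fact q.Prime] (a k : ℤ) (b : ℕ) (x B : ℚ) (hB : 1 ≤ B)
    (hx : padicNorm q x ≤ B) : padicNorm q ((a : ℚ) * k + b * x) ≤ B := by
  refine padicNorm.nonarchimedean.trans (max_le ?_ ?_)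
  · have h : (a : ℚ) * k = ((a * k : ℤ) : ℚ) := by push_cast; ring
    rw [h]
    exact (padicNorm.of_int _).trans hB
  · rw [padicNorm.mul]
    calc padicNorm q b * padicNorm q x ≤ 1 * B :=
          mul_le_mul (padicNorm.of_nat b) hx (padicNorm.nonneg _) zero_le_one
      _ = B := one_mul B

theorem odd (h1 : S_odd1) (h2 : S_odd2) : Pool.Agent.Y795.PiH.S_odd := by
  intro p hp a b hb q hq hq2
  haveI : Fact q.Prime := ⟨hq⟩
  have hq1 : (1 : ℚ) ≤ q := by exact_mod_cast hq.one_lt.le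
  constructor
  · -- the first bound
    rw [scaled p hp a b hb (fun i => X ^ i) (fun i _ => ⟨monic_X_pow i, natDegree_X_pow i⟩)]
    have hent : ∀ i j : Fin (p + 1), padicNorm q ((Matrix.of fun i j : Fin (p + 1) =>
        (a : ℚ) * kf p (iq ((X : ℤ[X]) ^ (i : ℕ) * X ^ (j : ℕ))) +
          b * bf p (iq ((X : ℤ[X]) ^ (i : ℕ) * X ^ (j : ℕ)))) i j) ≤ (q : ℚ) ^ Nat.log q (4 * p) := by
      intro i j
      rw [Matrix.of_apply, ← pow_add]
      obtain ⟨⟨k, hk⟩, hb1⟩ := h1 p hp ((X : ℤ[X]) ^ ((i : ℕ) + (j : ℕ))) (by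
        rw [natDegree_X_pow]; omega)
      rw [hk]
      exact entry q a k b _ _ (one_le_pow₀ hq1) (hb1 q hq hq2)
    refine (det_norm_le q _ (fun _ => (q : ℚ) ^ Nat.log q (4 * p)) (fun _ => by positivity) hent).trans ?_
    rw [Finset.prod_const, Finset.card_univ, Fintype.card_fin, ← pow_mul, mul_comm]
  · -- the second bound
    intro h7 h4
    have hodd : q % 2 = 1 := by
      rcases hq.eq_two_or_odd with h | h
      · exact absurd h hq2
      · exact h
    obtain ⟨A, hA⟩ : ∃ A : ℕ, 2 * A + q = 4 * p + 1 := ⟨(4 * p + 1 - q) / 2, by omega⟩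
    have hq3 : 2 < q := lt_of_le_of_ne hq.two_le (Ne.symm hq2)
    have hAp : A < 2 * p := by omega
    have hlog : Nat.log q (4 * p) = 1 := by
      rw [Nat.log_eq_iff (Or.inl one_ne_zero)]
      refine ⟨by rw [pow_one]; exact h4, ?_⟩
      have : 4 * p < q * q := by nlinarith
      calc 4 * p < q * q := this
        _ = q ^ (1 + 1) := by ring
    set Q : ℕ → ℤ[X] := fun i => if i < 2 * A then X ^ i else (X ^ 2 - 8) ^ A * X ^ (i - 2 * A) with hQdef
    have hD : ((X : ℤ[X]) ^ 2 - 8).Monic := by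
      have : ((X : ℤ[X]) ^ 2 - 8) = X ^ 2 - C 8 := by simp
      rw [this]
      exact monic_X_pow_sub_C 8 (by norm_num)
    have hDd : ((X : ℤ[X]) ^ 2 - 8).natDegree = 2 := by
      have : ((X : ℤ[X]) ^ 2 - 8) = X ^ 2 - C 8 := by simp
      rw [this]
      exact natDegree_X_pow_sub_C
    have hQ : ∀ i, (Q i).Monic ∧ (Q i).natDegree = i := by
      intro i
      rw [hQdef]
      dsimp only
      split_ifs with hi
      · exact ⟨monic_X_pow i, natDegree_X_pow i⟩
      · refine ⟨(hD.pow A).mul (monic_X_pow _), ?_⟩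
        rw [Monic.natDegree_mul (hD.pow A) (monic_X_pow _), hD.natDegree_pow, hDd, natDegree_X_pow]
        omega
    rw [scaled p hp a b hb Q (fun i _ => hQ i)]
    have hent : ∀ i j : Fin (p + 1), padicNorm q ((Matrix.of fun i j : Fin (p + 1) =>
        (a : ℚ) * kf p (iq (Q i * Q j)) + b * bf p (iq (Q i * Q j))) i j) ≤
          (fun i : Fin (p + 1) => (if 2 * A ≤ (i : ℕ) ∧ (i : ℕ) + 3 * p + 1 ≤ q then (1 : ℚ) else q)) i := by
      intro i j
      rw [Matrix.of_apply]
      dsimp only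
      have hdeg : (Q i * Q j).natDegree = (i : ℕ) + (j : ℕ) := by
        rw [Monic.natDegree_mul (hQ i).1 (hQ j).1, (hQ i).2, (hQ j).2]
      obtain ⟨⟨k, hk⟩, hb1⟩ := h1 p hp (Q i * Q j) (by rw [hdeg]; omega)
      rw [hk]
      split_ifs with hg
      · obtain ⟨hg1, hg2⟩ := hg
        have e1 : Q i * Q j = (X ^ 2 - 8) ^ A * (X ^ ((i : ℕ) - 2 * A) * Q j) := by
          have : Q i = (X ^ 2 - 8) ^ A * X ^ ((i : ℕ) - 2 * A) := by
            rw [hQdef]
            dsimp only
            rw [if_neg (by omega)]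
          rw [this]; ring
        have hR : (X ^ ((i : ℕ) - 2 * A) * Q j : ℤ[X]).natDegree = (i : ℕ) - 2 * A + (j : ℕ) := by
          rw [Monic.natDegree_mul (monic_X_pow _) (hQ j).1, natDegree_X_pow, (hQ j).2]
        have hx := h2 p A q (X ^ ((i : ℕ) - 2 * A) * Q j) hp hAp hq hq2 (by omega) (by
          rw [hR]; omega)
        rw [← e1] at hx
        exact entry q a k b _ 1 le_rfl hx
      · have hx := hb1 q hq hq2
        rw [hlog, pow_one] at hx
        exact entry q a k b _ q hq1 hx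
    refine (det_norm_le q _ _ (fun i => by split_ifs <;> positivity) hent).trans ?_
    rw [Fin.prod_univ_eq_prod_range (fun i : ℕ => (if 2 * A ≤ i ∧ i + 3 * p + 1 ≤ q then (1 : ℚ) else q))
      (p + 1), Finset.prod_ite, Finset.prod_const_one, one_mul, Finset.prod_const]
    have hcard : ((Finset.range (p + 1)).filter
        (fun i => ¬ (2 * A ≤ i ∧ i + 3 * p + 1 ≤ q))).card = 8 * p + 2 - 2 * q := by
      have h5 := Finset.card_filter_add_card_filter_not (s := Finset.range (p + 1))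
        (fun i => 2 * A ≤ i ∧ i + 3 * p + 1 ≤ q)
      have h6 : (Finset.range (p + 1)).filter (fun i => 2 * A ≤ i ∧ i + 3 * p + 1 ≤ q) =
          Finset.Ico (2 * A) (q - 3 * p) := by
        ext i
        rw [Finset.mem_filter, Finset.mem_range, Finset.mem_Ico]
        omega
      rw [h6, Nat.card_Ico, Finset.card_range] at h5
      omega
    rw [hcard]

end Pool.Agent.Y871.PiH
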